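import Pool.Agent.H92.V0F.Lbf
import Pool.Agent.H31.W.H23.D2.Bln
import Pool.Agent.H3.W.Bas
import Pool.Agent.H3.W.Bwn
import Pool.Agent.H31.W1.H2.GEN.ChT
import Pool.Agent.H31.W1.H23.D2.Bln
import Pool.Agent.H31.W1.H80.GEN.Chn

/-!
# Labels of fixed degree

`lb_step`: closed labels of a fixed degree from positions only and from one reference label.
`lbc_part`: a part of each event with labels of a universal degree for a chain and its target.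
`lbc_ext`: a subclass in which such labels exist on all events, at countably many windows.
-/

set_option autoImplicit false

namespace Pool.W.V0F

open Pool.V0F

open Finset Real MvPolynomial
open Pool.Agent.H49.Ent Pool.Agent.H32.Dense Pool.STK Pool.KA Pool.KSAT Pool.K2S Pool.PB Pool.GEN
open Pool.S6C Pool.RCD Pool.LA91 Pool.OWN68
open Pool.GRD (LbP gr_cls)
open Pool.GRW (bas_part)
open Pool.ORD65 (LbS rz_cls)
open Pool.D2R (BalD EvB)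
open Pool.CHT (chsys TmH)
open Pool.ISO (lvN)

variable {m : ℕ}


/-- **The data for labels of fixed degree** at the window `w`. -/
structure LbD (S : Pool.PB.PCl m) (P : List (Fin m) × Fin m → ℝ → ℝ → ℝ) (θ : ℝ) (c : ℕ → Fin m) (r : ℕ)
    (Pt : ℝ → ℝ → ℝ) (S₀ : ℕ) (Eb w : ℝ) (u E : ℕ → ℝ) : Prop where
  bal : ∃ a, Pool.W.D2R.BalD S P θ c r Pt a w S₀ Eb
  ref : ∀ i ≤ r, ∃ rk p₂ : ℝ, 0 < p₂ ∧ u i ≤ p₂ + E i ∧
    Pool.V0F.AttR S ((range i).image c) (c i) w p₂ rk (E i)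
  ful : ∀ i ≤ r, Pool.LA91.Ful S ((range i).image c) w (u i)
  wu : ∀ i ≤ r, w ≤ u i
  u1 : ∀ i ≤ r, u i < 1
  E0 : ∀ i ≤ r, 0 ≤ E i
  pu : ∀ i ≤ r, u i ≤ Pool.ISO.lvN P c r Pt i w w + E i
  pp : ∀ i ≤ r, 0 < Pool.ISO.lvN P c r Pt i w w


/-- **A part of each event with labels of a universal degree.** -/
theorem lbc_part (m r S₀ : ℕ) (hr : 1 ≤ r) (hS₀ : 1 ≤ S₀) : ∃ D : ℕ, 1 ≤ D ∧
    ∀ {S : Pool.PB.PCl m} {P : List (Fin m) × Fin m → ℝ → ℝ → ℝ} {θ C₀ : ℝ} {c : ℕ → Fin m}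
    {Pt : ℝ → ℝ → ℝ} {Eb w : ℝ} {u E : ℕ → ℝ}, Pool.LBT.ThrOf (Pool.W.CHT.chsys m θ) S P → 0 < θ → Pool.CHT.TmH S →
    0 ≤ C₀ → Pool.GEN.TmC S C₀ → Set.InjOn c (Set.Iio (r + 1)) → Pool.LEV.Law Pt →
    Pool.W.V0F.LbD S P θ c r Pt S₀ Eb w u E → ∀ e : ℝ, 0 < e → ∃ K : ℝ, Pool.S6C.Bas S (fun J F A =>
      ∃ B : F.Ω → Prop, Pool.K2S.Sub B A ∧ Pool.K2S.Pe F.p A ≤ K * Pool.K2S.Pe F.p B ∧
        ∃ (V : Type) (z : Pool.GEN.PtT F → V) (z' : Pool.GEN.LnT F → V)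
          (g : V → ℕ → MvPolynomial (Option (Fin m)) ℝ),
          Pool.V0F.LbE F c (r + 1) D E e w u (fun l => Pool.ISO.lvN P c r Pt l w w) B z z' g) := by
  classical
  obtain ⟨D, hD, hball⟩ := Pool.W.D2R.ball_win m r S₀ hr hS₀
  refine ⟨D, hD, ?_⟩
  intro S P θ C₀ c Pt Eb w u E hP hθ hS hC₀ htm hinj hPt hd e he
  obtain ⟨a, hbal⟩ := hd.bal
  obtain ⟨ρ, vs, e₁, e₀, E₁, sg, Q, hpt, hEb⟩ := hbal.dw
  have hw0 := hpt.w0
  have hwa := hbal.lt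
  obtain ⟨e₂, he₂, hall⟩ := Pool.V0F.lb_all (p := fun l => Pool.ISO.lvN P c r Pt l w w) hC₀ htm hS.1 hw0.le D
    (r + 1) (fun i hi => hd.ref i (by omega)) (fun i hi => hd.ful i (by omega))
    (fun i hi => hd.wu i (by omega)) (fun i hi => hd.u1 i (by omega))
    (fun i hi => hd.E0 i (by omega)) (fun i hi => hd.pu i (by omega))
    (fun i hi => hd.pp i (by omega))
  obtain ⟨e', he'⟩ : ∃ e' : ℝ, e' = min e e₂ := ⟨_, rfl⟩
  have he'0 : 0 < e' := by rw [he']; exact lt_min he he₂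
  have he'1 : e' ≤ e := by rw [he']; exact min_le_left _ _
  have he'2 : e' ≤ e₂ := by rw [he']; exact min_le_right _ _
  obtain ⟨K₁, μ, b, hK₁, -, -, hB⟩ := hball 0 hP hθ hS hinj hPt hwa hpt hEb
    (fun l hl => by have := hbal.top l hl; linarith) 1 (e' / 8) ((a - w) / 2) 0 one_pos
    (by linarith) (by linarith)
  obtain ⟨J₁, hJ₁⟩ := exists_nat_ge (2 / ((a - w) / 2))
  refine ⟨K₁ * 16 ^ (r + 1), ((hB 1 one_pos).and (Pool.GRW.bas_part (hall e' he'0 he'2) hK₁)).mono J₁ ?_⟩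
  rintro J hJ F A ⟨hb, hl⟩
  have hJ0 : (0 : ℝ) ≤ J := Nat.cast_nonneg J
  have hJ1 : 2 ≤ (a - w) / 2 * J := by
    have h1 : (J₁ : ℝ) ≤ J := by exact_mod_cast hJ
    have h2 := hJ₁.trans h1
    rw [div_le_iff₀ (by linarith)] at h2
    linarith
  have f1 : (⌊w * J⌋₊ : ℝ) ≤ w * J := Nat.floor_le (mul_nonneg hw0.le hJ0)
  have f2 : a * J - 1 < ⌊a * J⌋₊ := Nat.sub_one_lt_floor _
  have f3 : ⌊w * J⌋₊ ≤ ⌊a * J⌋₊ := Nat.floor_le_floor (mul_le_mul_of_nonneg_right hwa.le hJ0)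
  obtain ⟨B₀, g₀, G₀, H₀, hB₀, hPB₀, hg₀, hev⟩ := hb (fun _ => ⌊a * J⌋₊ - ⌊w * J⌋₊)
    fun i _ => ⟨by
      rw [Nat.cast_sub f3]
      nlinarith, le_rfl⟩
  have hch := hev.ball
  obtain ⟨V, hV⟩ : ∃ V : Type, V = {v : ℕ → MvPolynomial (Option (Fin m)) ℝ //
      ∀ i, (v i).totalDegree ≤ D ∧ Pool.GEN.DepC c i (v i)} := ⟨_, rfl⟩
  subst hV
  have hlb := hl B₀ hB₀ hPB₀ g₀
    {v : ℕ → MvPolynomial (Option (Fin m)) ℝ // ∀ i, (v i).totalDegree ≤ D ∧ Pool.GEN.DepC c i (v i)}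
    (fun y => ⟨fun i => if i < r + 1 then G₀ y i else 0, fun i => by
      by_cases hi : i < r + 1
      · simp only [if_pos hi]
        exact ⟨hch.degG y i, hch.depG y i⟩
      · simp only [if_neg hi]
        exact ⟨by simp, fun _ _ _ _ => by simp⟩⟩)
    (fun s => ⟨fun i => if i < r + 1 then H₀ s i else 0, fun i => by
      by_cases hi : i < r + 1
      · simp only [if_pos hi]
        exact ⟨hch.degH s i, hch.depH s i⟩
      · simp only [if_neg hi]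
        exact ⟨by simp, fun _ _ _ _ => by simp⟩⟩) (fun v => v.1) (fun i hi => ?_)
    (fun i hi => (hg₀ i (by omega)).1)
  · obtain ⟨B, hBB, hPB, hL⟩ := hlb
    refine ⟨B, fun ω hω => hB₀ ω (hBB ω hω), ?_, _, _, _, _, hL.mono (fun i _ => by linarith)
      (fun i _ => by linarith) he'1⟩
    rw [mul_assoc]
    exact hPB₀.trans (mul_le_mul_of_nonneg_left hPB hK₁.le)
  · have hcls : ∀ ω, B₀ ω → (fun i => if i < r + 1 then G₀ (Pool.PB.ptr F J ω) i else 0) =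
        fun i => if i < r + 1 then H₀ (Pool.KSAT.slam F ⌊w * J⌋₊ ω) i else 0 := by
      intro ω hω
      funext i'
      by_cases hi' : i' < r + 1
      · simp only [if_pos hi']
        exact hev.cls ω hω i' hi'
      · simp only [if_neg hi']
    refine ⟨fun v => (v.2 i).1, fun v b b' h0 h1 => (v.2 i).2 b b' h0 fun l hl' =>
      h1 _ (mem_image_of_mem _ (mem_range.2 hl')), fun ω hω => Subtype.ext (hcls ω hω),
      fun ω hω => ?_⟩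
    have h1 := hch.pos ω hω i hi
    show |F.x ω (c i) - eval (Pool.GEN.bt F ω) (if i < r + 1 then H₀ (Pool.KSAT.slam F ⌊w * J⌋₊ ω) i else 0)| ≤ _
    rw [if_pos hi, ← hev.cls ω hω i hi]
    exact h1

/-- **Labels of a universal degree in a subclass**, at countably many windows. -/
theorem lbc_ext (m r S₀ : ℕ) (hr : 1 ≤ r) (hS₀ : 1 ≤ S₀) : ∃ D : ℕ, 1 ≤ D ∧
    ∀ {S : Pool.PB.PCl m} {P : List (Fin m) × Fin m → ℝ → ℝ → ℝ} {θ C₀ : ℝ} {c : ℕ → Fin m}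
    {Pt : ℝ → ℝ → ℝ} {Eb : ℝ} {ι : Type} [Countable ι] {w : ι → ℝ} {u E : ι → ℕ → ℝ},
    S.Ne → Pool.LBT.ThrOf (Pool.W.CHT.chsys m θ) S P → 0 < θ → Pool.CHT.TmH S →
    0 ≤ C₀ → Pool.GEN.TmC S C₀ → Set.InjOn c (Set.Iio (r + 1)) → Pool.LEV.Law Pt →
    (∀ k, Pool.W.V0F.LbD S P θ c r Pt S₀ Eb (w k) (u k) (E k)) → ∃ S' : Pool.PB.PCl m, S'.Ne ∧
      (∀ (τ : ℝ) (J : ℕ) (F : Pool.KA.Fam m J) (A : F.Ω → Prop), S'.St τ J F A → S.St τ J F A) ∧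
      ∀ k, ∀ e : ℝ, 0 < e → Pool.S6C.Bas S' (fun J F A => ∃ (V : Type) (z : Pool.GEN.PtT F → V) (z' : Pool.GEN.LnT F → V)
        (g : V → ℕ → MvPolynomial (Option (Fin m)) ℝ),
        Pool.V0F.LbE F c (r + 1) D (E k) e (w k) (u k) (fun l => Pool.ISO.lvN P c r Pt l (w k) (w k)) A z z' g) := by
  obtain ⟨D, hD, hpart⟩ := Pool.W.V0F.lbc_part m r S₀ hr hS₀
  refine ⟨D, hD, ?_⟩
  intro S P θ C₀ c Pt Eb ι _ w u E hNe hP hθ hS hC₀ htm hinj hPt hd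
  obtain ⟨S', h1, h2, h3⟩ := Pool.V0F.her_extc hNe (ι := ι × ℕ) (fun i J F A =>
      ∃ (V : Type) (z : Pool.GEN.PtT F → V) (z' : Pool.GEN.LnT F → V) (g : V → ℕ → MvPolynomial (Option (Fin m)) ℝ),
        Pool.V0F.LbE F c (r + 1) D (E i.1) (1 / ((i.2 : ℝ) + 1)) (w i.1) (u i.1)
          (fun l => Pool.ISO.lvN P c r Pt l (w i.1) (w i.1)) A z z' g) (by
      rintro i J F A B hB ⟨V, z, z', g, h⟩
      exact ⟨V, z, z', g, h.sub hB⟩)
    (fun i => hpart hP hθ hS hC₀ htm hinj hPt (hd i.1) _ (by positivity))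
  refine ⟨S', h1, h2, fun k e he => ?_⟩
  obtain ⟨n, hn⟩ := exists_nat_one_div_lt he
  refine (h3 (k, n)).mono 0 ?_
  rintro J - F A ⟨V, z, z', g, h⟩
  exact ⟨V, z, z', g, h.mono (fun i _ => by linarith) (fun i _ => by linarith) hn.le⟩


end Pool.W.V0F
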