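import Pool.Agent.H92.V0F.Lbg
import Pool.Agent.H31.W.H3.D2G.RecG
import Pool.Agent.H31.W.H92.V0F.Lbf
import Pool.Agent.H3.W.Bas
import Pool.Agent.H31.W1.H2.GEN.ChT

/-!
# Labels of fixed degree at the chain windows of a record

`recG_lbc`: a subclass, with the same record, in which labels of a universal degree exist on all
events, at all windows of the chain.
-/

set_option autoImplicit false

namespace Pool.W.V0F

open Pool.V0F

open Finset Real MvPolynomial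
open Pool.Agent.H49.Ent Pool.Agent.H32.Dense Pool.STK Pool.KA Pool.KSAT Pool.K2S Pool.PB Pool.GEN
open Pool.S6C Pool.RCD Pool.LA91 Pool.OWN68
open Pool.PKG (Kg RecG)
open Pool.D2R (BalD)
open Pool.CHT (chsys TmH)
open Pool.ISO (lvN)

/-- The data of a ball window, with the constant of the chain. -/
theorem balD_rec {n : ℕ} {S : Pool.PB.PCl n} {al : ℝ} {g₀ : ℝ → ℝ} {P : List (Fin n) × Fin n → ℝ → ℝ → ℝ}
    {θ : ℝ} {P₂ : ℕ → List (Fin n) × Fin n → ℝ → ℝ → ℝ} {θ₂ Eb e₂ : ℕ → ℝ}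
    {c : ℕ → Fin n} {Pt : ℝ → ℝ → ℝ} {r : ℝ → ℝ} {h K₀ g : ℝ} {L T : ℕ → ℝ → ℝ → ℝ}
    {Sl : ℕ → ℝ} {κ : ℕ → Pool.PKG.Kg} {G : Set ℝ} {S₀ N : ℕ} {A V : ℕ → ℝ} {S₂ N' : ℕ} {V' : ℕ → ℝ}
    {K ε q t : ℝ}
    (R : Pool.W.PKG.RecG S al g₀ P θ P₂ θ₂ Eb e₂ c Pt r h K₀ g L T Sl κ G S₀ N A V S₂ N' V' K ε q t)
    (hn : 2 ≤ n) (hK : 0 < K) {k : ℕ} (hk : k < N') (hVK : |V' k| ≤ K) :
    Pool.W.D2R.BalD S P θ c (n - 1) Pt (t + V' k * q + K * q) (t + V' k * q) S₀ (Eb (n - 1)) := by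
  have W := R.tg (n - 1) (by omega) (by omega)
  have hlast := R.lv_last (by omega)
  have hq := R.q0
  have h1 : 0 < K * q := mul_pos hK hq
  have h2 := W.ptc k hk
  rw [hlast] at h2
  obtain ⟨ρ, vs, e, e₀, E, sg, Q, k1, k2, -⟩ := h2
  refine ⟨by linarith, ⟨ρ, vs, e, e₀, E, sg, Q, k1, k2⟩, fun l hl => ?_⟩
  have h3 := W.room l hl (t + V' k * q) (by
    rw [add_sub_cancel_left, abs_mul, abs_of_pos hq]
    exact mul_le_mul_of_nonneg_right hVK hq.le)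
  have h4 : Pool.ISO.lvN P c (n - 1) Pt l (t + V' k * q) (t + V' k * q) =
      L l (t + V' k * q) (t + V' k * q) := by rw [R.lv l (by omega)]
  rw [h4]
  linarith


end Pool.W.V0F
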