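import Pool.Agent.H92.V0F.Vsd
import Pool.Agent.H31.W.H92.V0F.Lbg
import Pool.Agent.H3.W.Bas
import Pool.Agent.H31.W1.H2.GEN.ChT
import Pool.Agent.H57.SWC.Lx

/-!
# Labels of fixed degree with small gradient exponents

`ChUQ`: the chain at all windows of `G`, full behind its largest level; `aePG_chU`, `her_chU`.
`recG_lbe`: a subclass, with the same record, in which labels of a universal degree exist on all
events, at all windows of the chain; level and gradient exponent stay below one by a margin.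
-/

set_option autoImplicit false

namespace Pool.W.V0F

open Pool.V0F

open Finset Real MvPolynomial
open Pool.Agent.H49.Ent Pool.Agent.H32.Dense Pool.STK Pool.KA Pool.KSAT Pool.K2S Pool.PB Pool.GEN
open Pool.S6C Pool.RCD Pool.LA91 Pool.OWN68 Pool.PKG
open Pool.D2R (BalD)
open Pool.CHT (chsys TmH)
open Pool.ISO (lvN)
open Pool.TOP (TopS)
open Pool.ONE (lst)

section

variable {n : ℕ} {hn : 2 ≤ n} {S : Pool.PB.PCl n} {P : ℝ → ℝ → ℝ} {rr : ℝ → ℝ}
  {P' : ℕ → List (Fin n) × Fin n → ℝ → ℝ → ℝ} {Λ : Finset (Fin n) → Fin n → ℝ → ℝ → ℝ}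


end


/-- **The data from a chain and a reference label of the target**; the radius is `u₁`. -/
theorem LbD.of2 {m : ℕ} {S : Pool.PB.PCl m} {P : List (Fin m) × Fin m → ℝ → ℝ → ℝ} {θ : ℝ}
    {c : ℕ → Fin m} {r : ℕ}
    {Pt : ℝ → ℝ → ℝ} {S₀ : ℕ} {Eb a w u₀ u₁ E rk : ℝ} {s rd : ℕ → ℝ}
    (hb : Pool.W.D2R.BalD S P θ c r Pt a w S₀ Eb) (hc : Pool.LA91.Chn S c 0 r w u₀ u₁ s rd)
    (hs : ∀ i < r, s i = Pool.ISO.lvN P c r Pt i w w)
    (ht : Pool.V0F.AttR S ((range r).image c) (c r) w (Pool.ISO.lvN P c r Pt r w w) rk E)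
    (hE0 : 0 ≤ E) (hE : u₁ ≤ Pool.ISO.lvN P c r Pt r w w + E) (hpp : ∀ i ≤ r, 0 < Pool.ISO.lvN P c r Pt i w w) :
    Pool.W.V0F.LbD S P θ c r Pt S₀ Eb w (fun _ => u₁)
      (fun i => if i < r then max 0 (u₁ - s i) else E) where
  bal := ⟨a, hb⟩
  ref := by
    intro i hi
    rcases Nat.lt_or_ge i r with h1 | h1
    · simp only [if_pos h1]
      refine ⟨rd i, s i, ?_, ?_, Pool.V0F.AttR.of (hc.att i (Nat.zero_le i) h1) (le_max_left _ _)⟩
      · rw [hs i h1]
        exact hpp i hi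
      · linarith [le_max_right 0 (u₁ - s i)]
    · obtain rfl : i = r := by omega
      simp only [if_neg (lt_irrefl i)]
      exact ⟨rk, _, hpp i le_rfl, hE, ht⟩
  ful := fun i hi => hc.pre i (Nat.zero_le i) hi
  wu := fun _ _ => hc.wu1
  u1 := fun _ _ => hc.u1
  E0 := fun i _ => by
    by_cases h1 : i < r
    · simp only [if_pos h1]
      exact le_max_left _ _
    · simp only [if_neg h1]
      exact hE0
  pu := fun i hi => by
    rcases Nat.lt_or_ge i r with h1 | h1
    · simp only [if_pos h1]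
      rw [← hs i h1]
      linarith [le_max_right 0 (u₁ - s i)]
    · obtain rfl : i = r := by omega
      simp only [if_neg (lt_irrefl i)]
      exact hE
  pp := hpp


end Pool.W.V0F
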